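import Pool.Agent.Results.MP_50bb2e_nt.MultiquadraticX15
import Pool.Agent.Y687.JQ.Mat

/-!
# Families of twists of `X_0(15)` which are good simultaneously: exact proportions
-/

set_option autoImplicit false

open Filter Topology

namespace Pool.Agent.Helper382_X15

open Pool.Agent.Results.MP_50bb2e_nt.MultiquadraticX15 (Cls UpTo InCls Ind RankZeroShaTwo GoodPair
  IsMultiquadratic OrderZero c num num_le upTo_unique inCls_prod inCls_mul sq_of_mul_sq upTo_mul
  cls_one)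
open Pool.Agent.Results.MP_696deb_nt.JointProportionX15 (tw tw_cls tw_one)

/-- `z` is good: up to squares a number `D ≠ 1` of the class with `E_D(ℚ)` finite and `Ш(E_D/ℚ)[2] = 0` -/
def Gd (z : ℤ) : Prop := ∃ D : ℕ, D ≠ 1 ∧ Cls D ∧ RankZeroShaTwo D ∧ UpTo z D

theorem Gd.inCls {z : ℤ} (h : Gd z) : InCls z := by
  obtain ⟨D, -, h1, -, h2⟩ := h
  exact ⟨D, h1, h2⟩

theorem inCls_ne {z : ℤ} (h : InCls z) : z ≠ 0 := by
  obtain ⟨D, hD, k, hk, rfl⟩ := h
  exact mul_ne_zero (by exact_mod_cast hD.1.ne_zero) (pow_ne_zero 2 hk)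

open Classical in
/-- the representative in the class -/
noncomputable def rep (z : ℤ) : ℕ := if h : InCls z then h.choose else 0

theorem rep_cls {z : ℤ} (h : InCls z) : Cls (rep z) := by
  unfold rep
  rw [dif_pos h]
  exact h.choose_spec.1

theorem rep_upTo {z : ℤ} (h : InCls z) : UpTo z (rep z) := by
  unfold rep
  rw [dif_pos h]
  exact h.choose_spec.2

theorem upTo_cancel {M z : ℤ} {D : ℕ} (hM : M ≠ 0) (hD : Squarefree D) (hz : z ≠ 0)
    (h : UpTo (M ^ 2 * z) D) : UpTo z D := by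
  obtain ⟨k, hk, h⟩ := h
  have h1 : ((D : ℤ) * z) * M ^ 2 = (D * k) ^ 2 := by linear_combination (D : ℤ) * h
  obtain ⟨w, hw⟩ := sq_of_mul_sq hM h1
  have hD' : Squarefree (D : ℤ) := Int.squarefree_natCast.2 hD
  have h2 : (D : ℤ) ∣ w := by
    have h3 : (D : ℤ) ∣ w ^ 2 := ⟨z, by rw [hw]; ring⟩
    exact (hD'.dvd_pow_iff_dvd two_ne_zero).1 h3
  obtain ⟨u, rfl⟩ := h2
  have hD0 : (D : ℤ) ≠ 0 := by exact_mod_cast hD.ne_zero
  have h4 : z = D * u ^ 2 := by
    apply mul_left_cancel₀ hD0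
    rw [hw]
    ring
  refine ⟨u, ?_, h4⟩
  rintro rfl
  exact hz (by rw [h4]; ring)

/-- two numbers of the class whose product is a square -/
theorem rep_eq {z z' : ℤ} (hz : InCls z) (hz' : InCls z') : IsSquare (z * z') ↔ rep z = rep z' := by
  obtain ⟨k, hk, h1⟩ := rep_upTo hz
  obtain ⟨l, hl, h2⟩ := rep_upTo hz'
  constructor
  · rintro ⟨w, hw⟩
    have hw0 : w ≠ 0 := by
      rintro rfl
      rw [mul_zero] at hw
      exact mul_ne_zero (inCls_ne hz) (inCls_ne hz') hw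
    refine upTo_unique (z := z' ^ 2 * z) (rep_cls hz) (rep_cls hz')
      ⟨z' * k, mul_ne_zero (inCls_ne hz') hk, ?_⟩ ⟨l * w, mul_ne_zero hl hw0, ?_⟩
    · calc z' ^ 2 * z = z' ^ 2 * (rep z * k ^ 2) := by rw [← h1]
        _ = _ := by ring
    · calc z' ^ 2 * z = z' * (z * z') := by ring
        _ = (rep z' * l ^ 2) * (w * w) := by rw [hw, ← h2]
        _ = _ := by ring
  · intro h
    refine ⟨rep z * k * l, ?_⟩
    calc z * z' = (rep z * k ^ 2) * (rep z' * l ^ 2) := by rw [← h1, ← h2]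
      _ = (rep z * k ^ 2) * (rep z * l ^ 2) := by rw [h]
      _ = _ := by ring

theorem rep_nat {D : ℕ} (hD : Cls D) : InCls (D : ℤ) ∧ rep (D : ℤ) = D := by
  have h1 : InCls (D : ℤ) := ⟨D, hD, 1, one_ne_zero, by ring⟩
  exact ⟨h1, upTo_unique (rep_cls h1) hD (rep_upTo h1) ⟨1, one_ne_zero, by ring⟩⟩

/-- the number `z D` is good if and only if its representative is so -/
theorem gd_mul {z : ℤ} {D : ℕ} (hz : InCls z) (hD : Cls D) (hne : D ≠ rep z) :
    Gd (z * D) ↔ RankZeroShaTwo (tw (rep z) D) := by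
  have h5 : UpTo (z * D) (tw (rep z) D) :=
    (upTo_mul (rep_upTo hz) ⟨1, one_ne_zero, by ring⟩).resolve_right (rep_cls hz).1.ne_zero
  have h8 : tw (rep z) D ≠ 1 := fun h => hne (tw_one (rep_cls hz).1 hD.1 h)
  constructor
  · rintro ⟨D', -, k2, k3, k4⟩
    rwa [upTo_unique (tw_cls (rep_cls hz) hD) k2 h5 k4]
  · intro h9
    exact ⟨_, h8, tw_cls (rep_cls hz) hD, h9, h5⟩

/-- **The exact proportion for finitely many numbers**, with finitely many exceptions. -/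
theorem prop_set (𝒯 : Finset ℤ) (h : ∀ z ∈ 𝒯, InCls z)
    (hne : ∀ z ∈ 𝒯, ∀ z' ∈ 𝒯, z ≠ z' → ¬ IsSquare (z * z')) (Q : ℕ → Prop) (S₀ : Finset ℕ)
    (hQ : ∀ D, Cls D → D ∉ S₀ → (Q D ↔ ∀ z ∈ 𝒯, Gd (z * D))) :
    Tendsto (fun X : ℕ => (num Q X : ℝ) / (num (fun _ => True) X : ℝ)) atTop (𝓝 (c ^ 𝒯.card)) := by
  classical
  set S : Finset ℕ := 𝒯.image rep with hS
  have hScard : S.card = 𝒯.card := by
    rw [hS]
    refine Finset.card_image_of_injOn fun z hz z' hz' he => ?_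
    by_contra hzz
    exact hne z hz z' hz' hzz ((rep_eq (h z hz) (h z' hz')).2 he)
  have hSc : ∀ D ∈ S, Cls D := by
    intro D hD
    obtain ⟨z, hz, rfl⟩ := Finset.mem_image.1 hD
    exact rep_cls (h z hz)
  have h1 := Pool.Agent.Results.MP_696deb_nt.JointProportionX15.joint S S hSc (Finset.Subset.refl S)
  rw [Finset.sdiff_self, Finset.card_empty, pow_zero, mul_one, hScard] at h1
  have h2 : Tendsto (fun X : ℕ => ((S₀ ∪ S).card : ℝ) / (num (fun _ => True) X : ℝ)) atTop (𝓝 0) :=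
    Pool.Agent.Results.MP_696deb_nt.JointProportionX15.count_tendsto.const_div_atTop _
  have h3 : Tendsto (fun X : ℕ =>
      (num Q X : ℝ) / (num (fun _ => True) X : ℝ) -
      (num (fun D => ∀ M' ∈ S, (RankZeroShaTwo (tw M' D) ↔ M' ∈ S)) X : ℝ) /
        (num (fun _ => True) X : ℝ)) atTop (𝓝 0) := by
    refine squeeze_zero_norm (fun X => ?_) h2
    rw [Real.norm_eq_abs, ← sub_div, abs_div, Nat.abs_cast]
    refine div_le_div_of_nonneg_right ?_ (Nat.cast_nonneg _)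
    refine Pool.Agent.Results.MP_696deb_nt.JointProportionX15.change (S₀ ∪ S) (fun D hD hDS => ?_) X
    rw [Finset.mem_union, not_or] at hDS
    refine (hQ D hD hDS.1).trans ?_
    have key : ∀ z ∈ 𝒯, (Gd (z * D) ↔ RankZeroShaTwo (tw (rep z) D)) := fun z hz =>
      gd_mul (h z hz) hD fun he => hDS.2 (he ▸ Finset.mem_image_of_mem rep hz)
    constructor
    · intro h4 M' hM'
      obtain ⟨z, hz, rfl⟩ := Finset.mem_image.1 hM'
      exact iff_of_true ((key z hz).1 (h4 z hz)) hM'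
    · intro h4 z hz
      have h5 := Finset.mem_image_of_mem rep hz
      exact (key z hz).2 ((h4 _ h5).2 h5)
  have h4 := h3.add h1
  rw [zero_add] at h4
  refine h4.congr fun X => ?_
  have e : (num (fun D => ∀ M' ∈ S, (RankZeroShaTwo (tw M' D) ↔ M' ∈ S)) X : ℝ) /
      (num (fun _ => True) X : ℝ) =
      (Pool.Agent.Results.MP_696deb_nt.JointProportionX15.count (fun D => ∀ M' ∈ S,
      (Pool.Agent.Results.MP_696deb_nt.JointProportionX15.RankZeroShaTwo (tw M' D) ↔ M' ∈ S)) X : ℝ) /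
      (Pool.Agent.Results.MP_696deb_nt.JointProportionX15.count (fun _ => True) X : ℝ) := rfl
  rw [e]
  ring

/-! ### the extensions by one more root -/

theorem goodPair_snoc {n : ℕ} (d : Fin n → ℤ) (M D : ℤ) :
    GoodPair M (Fin.snoc d D : Fin (n + 1) → ℤ) ↔ (GoodPair M d ∧ GoodPair (M * D) d) := by
  unfold GoodPair
  rw [Pool.Agent.Y687.JQ.prod_snoc_iff d D (fun z => ∃ D' : ℕ, D' ≠ 1 ∧ Cls D' ∧
    RankZeroShaTwo D' ∧ UpTo (M * z) D')]
  simp only [mul_assoc]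

/-- the numbers `d_i` of a good pair are in the class up to squares -/
theorem inCls_of {n : ℕ} {M : ℤ} {d : Fin n → ℤ} (hM : GoodPair M d) : ∀ i, InCls (d i) := by
  intro i
  have h0 : InCls M := by
    obtain ⟨D, -, h1, -, h2⟩ := hM ∅
    rw [Finset.prod_empty, mul_one] at h2
    exact ⟨D, h1, h2⟩
  have h1 : InCls (M * d i) := by
    obtain ⟨D, -, h1, -, h2⟩ := hM {i}
    rw [Finset.prod_singleton] at h2
    exact ⟨D, h1, h2⟩
  obtain ⟨D, hD, h2⟩ := inCls_mul h0 h1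
  refine ⟨D, hD, upTo_cancel (inCls_ne h0) hD.1 (right_ne_zero_of_mul (inCls_ne h1)) ?_⟩
  have e : M ^ 2 * d i = M * (M * d i) := by ring
  rwa [e]

/-- The finite set `𝒩` of twists is good over the field `ℚ(√d_1, …, √d_n)` of degree `2ⁿ`: all the pairs
`(M, d)` with `M ∈ 𝒩` are good, and the curves `E_M` are not isomorphic over the field: no
`M M' ∏_{i ∈ T} d_i` is a square for `M ≠ M'`. -/
def GoodFamily {n : ℕ} (𝒩 : Finset ℤ) (d : Fin n → ℤ) : Prop :=
  Ind d ∧ (∀ M ∈ 𝒩, GoodPair M d) ∧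
    ∀ M ∈ 𝒩, ∀ M' ∈ 𝒩, M ≠ M' → ∀ T : Finset (Fin n), ¬ IsSquare (M * M' * ∏ i ∈ T, d i)

theorem prod_sym' {ι : Type} [DecidableEq ι] (d : ι → ℤ) (T T' : Finset ι) :
    (∏ i ∈ symmDiff T T', d i) * (∏ i ∈ T ∩ T', d i) ^ 2 = (∏ i ∈ T, d i) * ∏ i ∈ T', d i := by
  have h1 : symmDiff T T' = (T \ T') ∪ (T' \ T) := rfl
  have hd : Disjoint (T \ T') (T' \ T) := by
    rw [Finset.disjoint_left]
    intro x hx hx'
    exact (Finset.mem_sdiff.1 hx').2 (Finset.mem_sdiff.1 hx).1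
  rw [h1, Finset.prod_union hd]
  have h2 : (∏ i ∈ T \ T', d i) * ∏ i ∈ T ∩ T', d i = ∏ i ∈ T, d i := by
    rw [← Finset.prod_union (Finset.disjoint_sdiff_inter T T'), Finset.sdiff_union_inter]
  have h3 : (∏ i ∈ T' \ T, d i) * ∏ i ∈ T ∩ T', d i = ∏ i ∈ T', d i := by
    rw [Finset.inter_comm, ← Finset.prod_union (Finset.disjoint_sdiff_inter T' T),
      Finset.sdiff_union_inter]
  rw [← h2, ← h3]
  ring

theorem isSquare_cancel {t a : ℤ} (ha : a ≠ 0) (h : IsSquare (t * a ^ 2)) : IsSquare t := by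
  obtain ⟨b, hb⟩ := h
  exact sq_of_mul_sq ha (by rw [hb]; ring)

/-- **The exact proportion over a fixed field**, for finitely many curves, with finitely many exceptions. -/
theorem prop_fix {n : ℕ} {𝒩 : Finset ℤ} {d : Fin n → ℤ} (hd : Ind d) (hMc : ∀ M ∈ 𝒩, InCls M)
    (hc : ∀ i, InCls (d i))
    (hne : ∀ M ∈ 𝒩, ∀ M' ∈ 𝒩, M ≠ M' → ∀ T : Finset (Fin n), ¬ IsSquare (M * M' * ∏ i ∈ T, d i))
    (Q : ℕ → Prop) (S₀ : Finset ℕ)
    (hQ : ∀ D, Cls D → D ∉ S₀ → (Q D ↔ ∀ M ∈ 𝒩, GoodPair (M * D) d)) :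
    Tendsto (fun X : ℕ => (num Q X : ℝ) / (num (fun _ => True) X : ℝ)) atTop
      (𝓝 (c ^ (𝒩.card * 2 ^ n))) := by
  classical
  have hd0 : ∀ i, d i ≠ 0 := fun i => inCls_ne (hc i)
  set f : ℤ × Finset (Fin n) → ℤ := fun p => p.1 * ∏ i ∈ p.2, d i with hf
  -- the product of two of the numbers is a square only if they are the same
  have hsq : ∀ p ∈ 𝒩 ×ˢ (Finset.univ : Finset (Finset (Fin n))),
      ∀ p' ∈ 𝒩 ×ˢ (Finset.univ : Finset (Finset (Fin n))), IsSquare (f p * f p') → p = p' := by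
    rintro ⟨M, T⟩ hp ⟨M', T'⟩ hp' hs
    have h1 := (Finset.mem_product.1 hp).1
    have h2 := (Finset.mem_product.1 hp').1
    have h3 : IsSquare (M * M' * ∏ i ∈ symmDiff T T', d i) := by
      refine isSquare_cancel (a := ∏ i ∈ T ∩ T', d i)
        (Finset.prod_ne_zero_iff.2 fun i _ => hd0 i) ?_
      rw [mul_assoc, prod_sym']
      have e : M * M' * ((∏ i ∈ T, d i) * ∏ i ∈ T', d i) =
          f (M, T) * f (M', T') := by
        simp only [hf]
        ring
      rw [e]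
      exact hs
    by_cases hMM : M = M'
    · subst hMM
      have h4 : IsSquare (∏ i ∈ symmDiff T T', d i) := by
        refine isSquare_cancel (a := M) (inCls_ne (hMc M h1)) ?_
        have e : (∏ i ∈ symmDiff T T', d i) * M ^ 2 = M * M * ∏ i ∈ symmDiff T T', d i := by ring
        rw [e]
        exact h3
      by_cases hTT : T = T'
      · rw [hTT]
      · exfalso
        have hne' : (symmDiff T T').Nonempty := by
          rw [Finset.nonempty_iff_ne_empty]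
          intro h0
          have h1 : symmDiff T T' = ⊥ := h0
          exact hTT (symmDiff_eq_bot.1 h1)
        exact hd _ hne' h4
    · exact absurd h3 (hne M h1 M' h2 hMM _)
  have hpos : ∀ p ∈ 𝒩 ×ˢ (Finset.univ : Finset (Finset (Fin n))), InCls (f p) := fun p hp =>
    inCls_mul (hMc _ (Finset.mem_product.1 hp).1) (inCls_prod hc _)
  have hinj : Set.InjOn f ((𝒩 ×ˢ (Finset.univ : Finset (Finset (Fin n))) :
      Finset (ℤ × Finset (Fin n))) : Set (ℤ × Finset (Fin n))) := by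
    intro p hp p' hp' he
    refine hsq p (Finset.mem_coe.1 hp) p' (Finset.mem_coe.1 hp') ?_
    rw [he]
    exact ⟨f p', rfl⟩
  set 𝒯 : Finset ℤ := (𝒩 ×ˢ (Finset.univ : Finset (Finset (Fin n)))).image f with h𝒯
  have hcard : 𝒯.card = 𝒩.card * 2 ^ n := by
    rw [h𝒯, Finset.card_image_of_injOn hinj, Finset.card_product, Finset.card_univ,
      Fintype.card_finset, Fintype.card_fin]
  rw [← hcard]
  refine prop_set 𝒯 (fun z hz => ?_) (fun z hz z' hz' hzz hs => ?_) Q S₀ (fun D hD hDS => ?_)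
  · obtain ⟨p, hp, rfl⟩ := Finset.mem_image.1 hz
    exact hpos p hp
  · obtain ⟨p, hp, rfl⟩ := Finset.mem_image.1 hz
    obtain ⟨p', hp', rfl⟩ := Finset.mem_image.1 hz'
    exact hzz (congrArg f (hsq p hp p' hp' hs))
  · refine (hQ D hD hDS).trans ?_
    constructor
    · intro h2 z hz
      obtain ⟨⟨M, T⟩, hp, rfl⟩ := Finset.mem_image.1 hz
      have h3 := h2 M (Finset.mem_product.1 hp).1 T
      have e : f (M, T) * (D : ℤ) = M * D * ∏ i ∈ T, d i := by
        simp only [hf]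
        ring
      rw [e]
      exact h3
    · intro h2 M h1 T
      have h3 := h2 (f (M, T)) (Finset.mem_image.2 ⟨(M, T), Finset.mem_product.2 ⟨h1,
        Finset.mem_univ _⟩, rfl⟩)
      have e : f (M, T) * (D : ℤ) = M * D * ∏ i ∈ T, d i := by
        simp only [hf]
        ring
      rw [e] at h3
      exact h3

/-- **The exact proportion of the extensions of a good field.** -/
theorem prop_fam {n : ℕ} {𝒩 : Finset ℤ} {d : Fin n → ℤ} (h : GoodFamily 𝒩 d) (h𝒩 : 𝒩.Nonempty) :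
    Tendsto (fun X : ℕ => (num (fun D => GoodFamily 𝒩 (Fin.snoc d (D : ℤ) : Fin (n + 1) → ℤ)) X : ℝ) /
      (num (fun _ => True) X : ℝ)) atTop (𝓝 (c ^ (𝒩.card * 2 ^ n))) := by
  classical
  obtain ⟨hd, hM, hne⟩ := h
  obtain ⟨M₀, hM₀⟩ := h𝒩
  have hc : ∀ i, InCls (d i) := inCls_of (hM M₀ hM₀)
  have hMc : ∀ M ∈ 𝒩, InCls M := fun M h => by
    obtain ⟨D, -, h1, -, h2⟩ := hM M h ∅
    rw [Finset.prod_empty, mul_one] at h2
    exact ⟨D, h1, h2⟩
  refine prop_fix hd hMc hc hne _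
    ((Finset.univ : Finset (Finset (Fin n))).image (fun T => rep (∏ i ∈ T, d i)) ∪
      ((𝒩 ×ˢ 𝒩) ×ˢ (Finset.univ : Finset (Finset (Fin n)))).image
        (fun p => rep (p.1.1 * p.1.2 * ∏ i ∈ p.2, d i))) (fun D hD hDS => ?_)
  rw [Finset.mem_union, not_or] at hDS
  obtain ⟨hD1, hD2⟩ := hDS
  have hD3 : ∀ z : ℤ, InCls z → IsSquare ((D : ℤ) * z) → D = rep z := by
    intro z hz hs
    have h1 := (rep_eq (rep_nat hD).1 hz).1 hs
    rwa [(rep_nat hD).2] at h1
  have hind : Ind (Fin.snoc d (D : ℤ) : Fin (n + 1) → ℤ) :=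
    Pool.Agent.Y687.JQ.ind_snoc hd fun T hsq => hD1 (Finset.mem_image.2
      ⟨T, Finset.mem_univ _, (hD3 _ (inCls_prod hc T) hsq).symm⟩)
  have hiso : ∀ M ∈ 𝒩, ∀ M' ∈ 𝒩, M ≠ M' → ∀ T : Finset (Fin (n + 1)),
      ¬ IsSquare (M * M' * ∏ i ∈ T, (Fin.snoc d (D : ℤ) : Fin (n + 1) → ℤ) i) := by
    intro M h1 M' h2 hMM
    refine (Pool.Agent.Y687.JQ.prod_snoc_iff d (D : ℤ) (fun z => ¬ IsSquare (M * M' * z))).2
      ⟨hne M h1 M' h2 hMM, fun T hs => hD2 (Finset.mem_image.2 ⟨((M, M'), T),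
        Finset.mem_product.2 ⟨Finset.mem_product.2 ⟨h1, h2⟩, Finset.mem_univ _⟩,
        (hD3 _ (inCls_mul (inCls_mul (hMc M h1) (hMc M' h2)) (inCls_prod hc T)) ?_).symm⟩)⟩
    have e : (D : ℤ) * (M * M' * ∏ i ∈ T, d i) = M * M' * ((D : ℤ) * ∏ i ∈ T, d i) := by ring
    rw [e]
    exact hs
  constructor
  · rintro ⟨-, h2, -⟩ M h1
    exact ((goodPair_snoc d M D).1 (h2 M h1)).2
  · intro h2
    exact ⟨hind, fun M h1 => (goodPair_snoc d M D).2 ⟨hM M h1, h2 M h1⟩, hiso⟩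

theorem num_tendsto : Tendsto (fun X : ℕ => (num (fun _ => True) X : ℝ)) atTop atTop :=
  Pool.Agent.Results.MP_696deb_nt.JointProportionX15.count_tendsto

theorem num_dens : Tendsto (fun X : ℕ => (num (fun _ => True) X : ℝ) / X) atTop
    (𝓝 (5 / (16 * Real.pi ^ 2))) :=
  Pool.Agent.Results.MP_696deb_nt.JointProportionX15.dens

/-- from an exact proportion to lower bounds -/
theorem low {Q R : ℕ → Prop} {a : ℝ} (hQR : ∀ D, Cls D → Q D → R D)
    (h : Tendsto (fun X : ℕ => (num Q X : ℝ) / (num (fun _ => True) X : ℝ)) atTop (𝓝 a))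
    {ε : ℝ} (hε : 0 < ε) :
    (∀ᶠ X : ℕ in atTop, (a - ε) * (num (fun _ => True) X : ℝ) ≤ (num R X : ℝ)) ∧
    ∀ᶠ X : ℕ in atTop, (5 / (16 * Real.pi ^ 2) * a - ε) * X ≤ (num R X : ℝ) := by
  have hle : ∀ X, num Q X ≤ num R X := num_le hQR
  constructor
  · filter_upwards [h.eventually (lt_mem_nhds (show a - ε < a by linarith)),
      num_tendsto.eventually_gt_atTop 0] with X hX h0
    exact ((lt_div_iff₀ h0).1 hX).le.trans (by exact_mod_cast hle X)
  · have h2 := num_dens.mul h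
    filter_upwards [h2.eventually (lt_mem_nhds (show 5 / (16 * Real.pi ^ 2) * a - ε <
      5 / (16 * Real.pi ^ 2) * a by linarith)), num_tendsto.eventually_gt_atTop 0,
      eventually_ge_atTop 1] with X hX h0 hX1
    have hX0 : (0 : ℝ) < X := by exact_mod_cast hX1
    have e : (num (fun _ => True) X : ℝ) / X *
        ((num Q X : ℝ) / (num (fun _ => True) X : ℝ)) = (num Q X : ℝ) / X := by
      field_simp
    rw [e, lt_div_iff₀ hX0] at hX
    exact hX.le.trans (by exact_mod_cast hle X)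

end Pool.Agent.Helper382_X15
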