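import Pool.Agent.Helper382_X15.Fam

/-!
# Asymptotic independence for sequences of finite sets of twists, and almost all `D`
-/

set_option autoImplicit false

open Filter Topology

namespace Pool.Agent.Helper382_X15

open Pool.Agent.Results.MP_50bb2e_nt.MultiquadraticX15 (Cls InCls Ind GoodPair c num num_le)

open Classical in
/-- the indicator -/
noncomputable def ind (P : Prop) : ℝ := if P then 1 else 0

theorem ind_pos {P : Prop} (h : P) : ind P = 1 := if_pos h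

theorem ind_neg {P : Prop} (h : ¬ P) : ind P = 0 := if_neg h

theorem ind_not (P : Prop) : 1 + -ind P = ind (¬ P) := by
  by_cases h : P
  · rw [ind_pos h, ind_neg (not_not.2 h)]
    norm_num
  · rw [ind_neg h, ind_pos h]
    norm_num

theorem prod_ind {ι : Type} (S : Finset ι) (G : ι → Prop) :
    ∏ j ∈ S, ind (G j) = ind (∀ j ∈ S, G j) := by
  by_cases h : ∀ j ∈ S, G j
  · rw [ind_pos h]
    exact Finset.prod_eq_one fun j hj => ind_pos (h j hj)
  · rw [ind_neg h]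
    push Not at h
    obtain ⟨j, hj, hg⟩ := h
    exact Finset.prod_eq_zero hj (ind_neg hg)

theorem ind_and (P Q : Prop) : ind P * ind Q = ind (P ∧ Q) := by
  by_cases h : P
  · rw [ind_pos h, one_mul]
    congr 1
    simp [h]
  · rw [ind_neg h, zero_mul, ind_neg fun h' => h h'.1]

open Classical in
theorem num_ind (Q : ℕ → Prop) (X : ℕ) : (num Q X : ℝ) =
    ∑ D ∈ (Finset.Icc 1 X).filter fun D => Cls D, ind (Q D) := by
  unfold num ind
  rw [Finset.sum_boole, Finset.filter_filter]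

/-- inclusion and exclusion for the numbers of the `D` -/
theorem num_pattern {ι : Type} [DecidableEq ι] (G : ι → ℕ → Prop) {S V : Finset ι} (hV : V ⊆ S)
    (X : ℕ) : (num (fun D => ∀ j ∈ S, (G j D ↔ j ∈ V)) X : ℝ) =
      ∑ J ∈ (S \ V).powerset, (-1) ^ J.card * (num (fun D => ∀ j ∈ V ∪ J, G j D) X : ℝ) := by
  simp only [num_ind, Finset.mul_sum]
  rw [Finset.sum_comm]
  refine Finset.sum_congr rfl fun D _ => ?_
  have h1 : ∀ J : Finset ι, ind (∀ j ∈ V ∪ J, G j D) =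
      (∏ j ∈ V, ind (G j D)) * ∏ j ∈ J, ind (G j D) := by
    intro J
    rw [prod_ind, prod_ind, ind_and]
    congr 1
    simp only [Finset.mem_union, eq_iff_iff]
    exact ⟨fun h => ⟨fun j hj => h j (Or.inl hj), fun j hj => h j (Or.inr hj)⟩,
      fun h j hj => hj.elim (h.1 j) (h.2 j)⟩
  simp only [h1]
  have h2 : ∑ J ∈ (S \ V).powerset, (-1 : ℝ) ^ J.card *
      ((∏ j ∈ V, ind (G j D)) * ∏ j ∈ J, ind (G j D)) =
      (∏ j ∈ V, ind (G j D)) * ∏ j ∈ S \ V, (1 + -ind (G j D)) := by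
    rw [Finset.prod_one_add, Finset.mul_sum]
    refine Finset.sum_congr rfl fun J _ => ?_
    rw [Finset.prod_neg]
    ring
  rw [h2]
  simp only [ind_not]
  rw [prod_ind, prod_ind, ind_and]
  congr 1
  simp only [Finset.mem_sdiff, eq_iff_iff]
  constructor
  · intro h
    exact ⟨fun j hj => (h j (hV hj)).2 hj, fun j hj hg => hj.2 ((h j hj.1).1 hg)⟩
  · rintro ⟨h4, h5⟩ j hj
    exact ⟨fun hg => by_contra fun hjV => h5 j ⟨hj, hjV⟩ hg, h4 j⟩

/-- from the proportions of the conjunctions to the proportions of all patterns -/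
theorem pattern {ι : Type} [DecidableEq ι] (G : ι → ℕ → Prop) (p : ι → ℝ)
    (h : ∀ J : Finset ι, Tendsto (fun X : ℕ => (num (fun D => ∀ j ∈ J, G j D) X : ℝ) /
      (num (fun _ => True) X : ℝ)) atTop (𝓝 (∏ j ∈ J, p j))) {S V : Finset ι} (hV : V ⊆ S) :
    Tendsto (fun X : ℕ => (num (fun D => ∀ j ∈ S, (G j D ↔ j ∈ V)) X : ℝ) /
      (num (fun _ => True) X : ℝ)) atTop (𝓝 ((∏ j ∈ V, p j) * ∏ j ∈ S \ V, (1 - p j))) := by
  classical
  have h1 : Tendsto (fun X : ℕ => ∑ J ∈ (S \ V).powerset, (-1 : ℝ) ^ J.card *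
      ((num (fun D => ∀ j ∈ V ∪ J, G j D) X : ℝ) / (num (fun _ => True) X : ℝ))) atTop
      (𝓝 (∑ J ∈ (S \ V).powerset, (-1 : ℝ) ^ J.card * ∏ j ∈ V ∪ J, p j)) :=
    tendsto_finsetSum _ fun J _ => (h (V ∪ J)).const_mul _
  have h2 : (∑ J ∈ (S \ V).powerset, (-1 : ℝ) ^ J.card * ∏ j ∈ V ∪ J, p j) =
      (∏ j ∈ V, p j) * ∏ j ∈ S \ V, (1 - p j) := by
    simp only [sub_eq_add_neg]
    rw [Finset.prod_one_add, Finset.mul_sum]
    refine Finset.sum_congr rfl fun J hJ => ?_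
    rw [Finset.prod_neg, Finset.prod_union]
    · ring
    · refine Finset.disjoint_left.2 fun j hj hj' => ?_
      exact (Finset.mem_sdiff.1 (Finset.mem_powerset.1 hJ hj')).2 hj
  rw [h2] at h1
  refine h1.congr fun X => ?_
  rw [num_pattern G hV X, Finset.sum_div]
  refine Finset.sum_congr rfl fun J _ => ?_
  rw [mul_div_assoc]

theorem num_le_true (Q : ℕ → Prop) (X : ℕ) : num Q X ≤ num (fun _ => True) X :=
  num_le (fun _ _ _ => trivial) X

theorem num_not (Q : ℕ → Prop) (X : ℕ) :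
    (num Q X : ℝ) + (num (fun D => ¬ Q D) X : ℝ) = (num (fun _ => True) X : ℝ) := by
  rw [num_ind, num_ind, num_ind, ← Finset.sum_add_distrib]
  refine Finset.sum_congr rfl fun D _ => ?_
  rw [← ind_not, ind_pos trivial]
  ring

/-- **Almost all `D`.** -/
theorem almost (G : ℕ → ℕ → Prop) (p : ℕ → ℝ)
    (h : ∀ J : Finset ℕ, Tendsto (fun X : ℕ => (num (fun D => ∀ j ∈ J, G j D) X : ℝ) /
      (num (fun _ => True) X : ℝ)) atTop (𝓝 (∏ j ∈ J, p j))) {p0 : ℝ} (hp0 : 0 < p0)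
    (hp : ∀ j, p0 ≤ p j) (hp1 : ∀ j, p j ≤ 1) {ψ : ℕ → ℕ} (hψ : Tendsto ψ atTop atTop) :
    Tendsto (fun X : ℕ => (num (fun D => ∃ j < ψ D, G j D) X : ℝ) /
      (num (fun _ => True) X : ℝ)) atTop (𝓝 1) := by
  classical
  rw [Metric.tendsto_atTop]
  intro ε hε
  -- the proportion of the `D` with no good `j < k`
  obtain ⟨k, hk⟩ : ∃ k : ℕ, (1 - p0) ^ k < ε / 3 :=
    exists_pow_lt_of_lt_one (by linarith) (by linarith)
  have hp01 : p0 ≤ 1 := (hp 0).trans (hp1 0)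
  have h1 := pattern G p h (S := Finset.range k) (V := ∅) (Finset.empty_subset _)
  rw [Finset.prod_empty, one_mul, Finset.sdiff_empty] at h1
  have h2 : ∏ j ∈ Finset.range k, (1 - p j) ≤ (1 - p0) ^ k := by
    calc ∏ j ∈ Finset.range k, (1 - p j) ≤ ∏ _j ∈ Finset.range k, (1 - p0) :=
          Finset.prod_le_prod (fun j _ => by linarith [hp1 j]) (fun j _ => by linarith [hp j])
      _ = _ := by rw [Finset.prod_const, Finset.card_range]
  -- the finitely many exceptions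
  obtain ⟨D₀, hD₀⟩ := eventually_atTop.1 (hψ.eventually_ge_atTop k)
  have h3 : Tendsto (fun X : ℕ => ((Finset.range D₀).card : ℝ) / (num (fun _ => True) X : ℝ)) atTop
      (𝓝 0) :=
    Pool.Agent.Results.MP_696deb_nt.JointProportionX15.count_tendsto.const_div_atTop _
  have hpos : Tendsto (fun X : ℕ => (num (fun _ => True) X : ℝ)) atTop atTop :=
    Pool.Agent.Results.MP_696deb_nt.JointProportionX15.count_tendsto
  have h4 := (h1.eventually (gt_mem_nhds (show ∏ j ∈ Finset.range k, (1 - p j) < ε / 3 by linarith))).and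
    ((h3.eventually (gt_mem_nhds (show (0 : ℝ) < ε / 3 by linarith))).and
      (hpos.eventually_gt_atTop 0))
  obtain ⟨X₀, hX₀⟩ := eventually_atTop.1 h4
  refine ⟨X₀, fun X hX => ?_⟩
  obtain ⟨h5, h6, h7⟩ := hX₀ X hX
  have h8 := num_not (fun D => ∃ j < ψ D, G j D) X
  have h9 : (num (fun D => ¬ ∃ j < ψ D, G j D) X : ℝ) ≤
      (num (fun D => ∀ j ∈ Finset.range k, (G j D ↔ j ∈ (∅ : Finset ℕ))) X : ℝ) +
        (Finset.range D₀).card := by
    refine Pool.Agent.Results.MP_696deb_nt.JointProportionX15.le_add (Finset.range D₀)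
      (fun D _ hDT hno j hj => ?_) X
    have h10 : k ≤ ψ D := hD₀ D (by
      by_contra hlt
      exact hDT (Finset.mem_range.2 (by omega)))
    have h11 : ¬ G j D := fun hg => hno ⟨j, lt_of_lt_of_le (Finset.mem_range.1 hj) h10, hg⟩
    simp [h11]
  rw [Real.dist_eq, abs_sub_comm, abs_of_nonneg]
  · have e : 1 - (num (fun D => ∃ j < ψ D, G j D) X : ℝ) / (num (fun _ => True) X : ℝ) =
        (num (fun D => ¬ ∃ j < ψ D, G j D) X : ℝ) / (num (fun _ => True) X : ℝ) := by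
      rw [eq_div_iff h7.ne', sub_mul, div_mul_cancel₀ _ h7.ne', ← h8]
      ring
    rw [e]
    calc (num (fun D => ¬ ∃ j < ψ D, G j D) X : ℝ) / (num (fun _ => True) X : ℝ) ≤
          ((num (fun D => ∀ j ∈ Finset.range k, (G j D ↔ j ∈ (∅ : Finset ℕ))) X : ℝ) +
            (Finset.range D₀).card) / (num (fun _ => True) X : ℝ) :=
          div_le_div_of_nonneg_right h9 h7.le
      _ = _ := add_div _ _ _
      _ < ε := by linarith
  · rw [sub_nonneg, div_le_one h7]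
    exact_mod_cast num_le_true _ X

/-- **Asymptotic independence** of the events that all the twists by `D` of the curves of one of the sets
are good over the field: the conjunctions -/
theorem conj_law {n : ℕ} {d : Fin n → ℤ} (hd : Ind d) (hc : ∀ i, InCls (d i)) {ι : Type}
    (𝒩 : ι → Finset ℤ) (hM : ∀ j, ∀ M ∈ 𝒩 j, InCls M) (hdis : ∀ j j', j ≠ j' → Disjoint (𝒩 j) (𝒩 j'))
    (hne : ∀ j j', ∀ M ∈ 𝒩 j, ∀ M' ∈ 𝒩 j', M ≠ M' → ∀ T : Finset (Fin n),
      ¬ IsSquare (M * M' * ∏ i ∈ T, d i)) (J : Finset ι) :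
    Tendsto (fun X : ℕ => (num (fun D => ∀ j ∈ J, ∀ M ∈ 𝒩 j, GoodPair (M * D) d) X : ℝ) /
      (num (fun _ => True) X : ℝ)) atTop (𝓝 (∏ j ∈ J, c ^ ((𝒩 j).card * 2 ^ n))) := by
  classical
  have h1 : (J.biUnion 𝒩).card = ∑ j ∈ J, (𝒩 j).card :=
    Finset.card_biUnion fun j _ j' _ h => hdis j j' h
  have h2 : ∏ j ∈ J, c ^ ((𝒩 j).card * 2 ^ n) = c ^ ((J.biUnion 𝒩).card * 2 ^ n) := by
    rw [h1, Finset.sum_mul, Finset.prod_pow_eq_pow_sum]
  rw [h2]
  refine prop_fix hd (fun M h => ?_) hc (fun M h M' h' => ?_) _ ∅ (fun D _ _ => ?_)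
  · obtain ⟨j, -, hj⟩ := Finset.mem_biUnion.1 h
    exact hM j M hj
  · obtain ⟨j, -, hj⟩ := Finset.mem_biUnion.1 h
    obtain ⟨j', -, hj'⟩ := Finset.mem_biUnion.1 h'
    exact hne j j' M hj M' hj'
  · constructor
    · intro h M hM
      obtain ⟨j, hj, hM⟩ := Finset.mem_biUnion.1 hM
      exact h j hj M hM
    · intro h j hj M hM
      exact h M (Finset.mem_biUnion.2 ⟨j, hj, hM⟩)

/-- the conjunctions for a sequence of curves -/
theorem seq_law {n : ℕ} {d : Fin n → ℤ} (hd : Ind d) (hc : ∀ i, InCls (d i)) (M : ℕ → ℤ)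
    (hM : ∀ j, InCls (M j)) (hne : ∀ j j', j ≠ j' → ∀ T : Finset (Fin n),
      ¬ IsSquare (M j * M j' * ∏ i ∈ T, d i)) (J : Finset ℕ) :
    Tendsto (fun X : ℕ => (num (fun D => ∀ j ∈ J, GoodPair (M j * D) d) X : ℝ) /
      (num (fun _ => True) X : ℝ)) atTop (𝓝 (∏ _j ∈ J, c ^ 2 ^ n)) := by
  have hinj : ∀ j j', j ≠ j' → M j ≠ M j' := by
    intro j j' hj h
    refine hne j j' hj ∅ ?_
    rw [Finset.prod_empty, mul_one, h]
    exact ⟨M j', rfl⟩
  have h := conj_law hd hc (fun j => {M j}) (fun j M' h => by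
      rw [Finset.mem_singleton.1 h]
      exact hM j) (fun j j' h => Finset.disjoint_singleton.2 (hinj j j' h))
    (fun j j' M₁ h₁ M₂ h₂ h₁₂ => by
      rw [Finset.mem_singleton] at h₁ h₂
      subst h₁ h₂
      exact hne j j' fun h => h₁₂ (by rw [h])) J
  simp only [Finset.card_singleton, one_mul, Finset.mem_singleton, forall_eq] at h
  exact h

/-- a property which holds for almost all `D`, and a property which follows from it with finitely many
exceptions -/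
theorem almost_mono {Q R : ℕ → Prop} (S₀ : Finset ℕ) (hQR : ∀ D, Cls D → D ∉ S₀ → (Q D → R D))
    (h : Tendsto (fun X : ℕ => (num Q X : ℝ) / (num (fun _ => True) X : ℝ)) atTop (𝓝 1)) :
    Tendsto (fun X : ℕ => (num R X : ℝ) / (num (fun _ => True) X : ℝ)) atTop (𝓝 1) := by
  have hpos : Tendsto (fun X : ℕ => (num (fun _ => True) X : ℝ)) atTop atTop :=
    Pool.Agent.Results.MP_696deb_nt.JointProportionX15.count_tendsto
  have h3 : Tendsto (fun X : ℕ => (S₀.card : ℝ) / (num (fun _ => True) X : ℝ)) atTop (𝓝 0) :=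
    hpos.const_div_atTop _
  have h4 := h.sub h3
  rw [sub_zero] at h4
  refine tendsto_of_tendsto_of_tendsto_of_le_of_le' h4 tendsto_const_nhds ?_ ?_
  · refine Eventually.of_forall fun X => ?_
    rw [← sub_div]
    refine div_le_div_of_nonneg_right ?_ (Nat.cast_nonneg _)
    have h5 : (num Q X : ℝ) ≤ num R X + S₀.card :=
      Pool.Agent.Results.MP_696deb_nt.JointProportionX15.le_add S₀ hQR X
    linarith
  · filter_upwards [hpos.eventually_gt_atTop 0] with X hX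
    rw [div_le_one hX]
    exact_mod_cast num_le_true R X

theorem c_pow {n : ℕ} (hc : 0 < c) (hc1 : c ≤ 1) : 0 < c ^ n ∧ c ^ n ≤ 1 :=
  ⟨pow_pos hc n, pow_le_one₀ hc.le hc1⟩

/-- **Almost all `D`, for a sequence of curves over a fixed field.** -/
theorem seq_almost {n : ℕ} {d : Fin n → ℤ} (hd : Ind d) (hc : ∀ i, InCls (d i)) (M : ℕ → ℤ)
    (hM : ∀ j, InCls (M j)) (hne : ∀ j j', j ≠ j' → ∀ T : Finset (Fin n),
      ¬ IsSquare (M j * M j' * ∏ i ∈ T, d i)) (h0 : 0 < c) (h1 : c ≤ 1) {ψ : ℕ → ℕ}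
    (hψ : Tendsto ψ atTop atTop) :
    Tendsto (fun X : ℕ => (num (fun D => ∃ j < ψ D, GoodPair (M j * D) d) X : ℝ) /
      (num (fun _ => True) X : ℝ)) atTop (𝓝 1) :=
  almost (fun j D => GoodPair (M j * D) d) (fun _ => c ^ 2 ^ n) (seq_law hd hc M hM hne)
    (c_pow h0 h1).1 (fun _ => le_rfl) (fun _ => (c_pow h0 h1).2) hψ

/-- one more root: all but finitely many `D` of the class give a field of twice the degree -/
theorem ind_snoc_of {n : ℕ} {d : Fin n → ℤ} (hd : Ind d) (hc : ∀ i, InCls (d i)) :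
    ∃ S₀ : Finset ℕ, ∀ D, Cls D → D ∉ S₀ → Ind (Fin.snoc d (D : ℤ) : Fin (n + 1) → ℤ) := by
  classical
  refine ⟨(Finset.univ : Finset (Finset (Fin n))).image (fun T => rep (∏ i ∈ T, d i)),
    fun D hD hDS => Pool.Agent.Y687.JQ.ind_snoc hd fun T hsq => hDS (Finset.mem_image.2
      ⟨T, Finset.mem_univ _, ?_⟩)⟩
  have h1 := (rep_eq (rep_nat hD).1 (Pool.Agent.Results.MP_50bb2e_nt.MultiquadraticX15.inCls_prod hc T)).1 hsq
  rw [(rep_nat hD).2] at h1
  exact h1.symm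

/-- **Almost all `D`, for a sequence of fixed curves over the varying field.** -/
theorem seq_almost_field {n : ℕ} {d : Fin n → ℤ} (hd : Ind d) (M : ℕ → ℤ)
    (hM : ∀ j, GoodPair (M j) d) (hne : ∀ j j', j ≠ j' → ∀ T : Finset (Fin n),
      ¬ IsSquare (M j * M j' * ∏ i ∈ T, d i)) (h0 : 0 < c) (h1 : c ≤ 1) {ψ : ℕ → ℕ}
    (hψ : Tendsto ψ atTop atTop) :
    Tendsto (fun X : ℕ => (num (fun D => Ind (Fin.snoc d (D : ℤ) : Fin (n + 1) → ℤ) ∧
      ∃ j < ψ D, GoodPair (M j) (Fin.snoc d (D : ℤ) : Fin (n + 1) → ℤ)) X : ℝ) /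
      (num (fun _ => True) X : ℝ)) atTop (𝓝 1) := by
  have hc : ∀ i, InCls (d i) := inCls_of (hM 0)
  obtain ⟨S₀, hS₀⟩ := ind_snoc_of hd hc
  refine almost_mono S₀ (fun D hD hDS h => ⟨hS₀ D hD hDS, ?_⟩) (seq_almost hd hc M (fun j => by
      obtain ⟨D, -, h1, -, h2⟩ := hM j ∅
      rw [Finset.prod_empty, mul_one] at h2
      exact ⟨D, h1, h2⟩) hne h0 h1 hψ)
  obtain ⟨j, hj, hg⟩ := h
  exact ⟨j, hj, (goodPair_snoc d (M j) D).2 ⟨hM j, hg⟩⟩

end Pool.Agent.Helper382_X15
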