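import Pool.Agent.Helper382_X15.Tower
import Pool.Agent.Y687.JQ.Kl

/-!
# The 2-primary part of the Tate-Shafarevich group of the twists of `X_0(15)` over multiquadratic fields
-/

set_option autoImplicit false

namespace Pool.Agent.Helper382_X15

open Pool.Agent.Results.MP_50bb2e_nt.MultiquadraticX15 (Cls UpTo Ind RankZeroShaTwo GoodPair)
open Pool.Agent.Y723.QT (Kl F2)
open Pool.Agent.TH841.NF (EF)

/-- no elements of order two, up to squares -/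
theorem sha_two {D : ℕ} {k N : ℤ} (hc : Cls D) (hD : RankZeroShaTwo D) (hk : k ≠ 0)
    (hN : N = D * k ^ 2) :
    ∀ x : Pool.Agent.TH841.SH.D.Sha (Pool.Agent.Z702.sh (-12987 * N ^ 2) (-263466 * N ^ 3)),
      x + x = 0 → x = 0 := by
  have e1 : -12987 * N ^ 2 = k ^ 4 * (-12987 * (D : ℤ) ^ 2) := by rw [hN]; ring
  have e2 : -263466 * N ^ 3 = k ^ 6 * (-263466 * (D : ℤ) ^ 3) := by rw [hN]; ring
  rw [e1, e2]
  have hΔ : (Pool.Agent.Z702.sh (-12987 * (D : ℤ) ^ 2) (-263466 * (D : ℤ) ^ 3)).Δ ≠ 0 := by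
    have e3 : (Pool.Agent.Z702.sh (-12987 * (D : ℤ) ^ 2) (-263466 * (D : ℤ) ^ 3)).Δ =
        -16 * (4 * (-12987) ^ 3 + 27 * 263466 ^ 2) * (D : ℚ) ^ 6 := by
      simp only [Pool.Agent.Z702.sh, WeierstrassCurve.Δ, WeierstrassCurve.b₂, WeierstrassCurve.b₄,
        WeierstrassCurve.b₆, WeierstrassCurve.b₈]
      push_cast
      ring
    rw [e3]
    exact mul_ne_zero (by norm_num) (pow_ne_zero 6 (by exact_mod_cast hc.1.ne_zero))
  refine (Pool.Agent.Z702.f_TRN _ _ _ _ _ _ (Pool.Agent.Y687.JQ.vr_sq _ _ hk) hΔ).2.1.2 ?_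
  intro x hx
  refine hD.2 x ?_
  rw [two_nsmul]
  exact hx

/-- **The two-primary part over the field.** -/
theorem sha_field {n : ℕ} {d : Fin n → ℤ} {M : ℤ} (hd : Ind d) (h : GoodPair M d)
    (F : Type) [Field F] [NumberField F] {x : Fin n → F} (hx : ∀ i, x i ^ 2 = (d i : F))
    (hgen : IntermediateField.adjoin ℚ (Set.range x) = ⊤) :
    F2 (Pool.Agent.TH841.NF.D.Sha (EF (-12987 * M ^ 2) (-263466 * M ^ 3) F)) ∧
      Kl (Pool.Agent.TH841.NF.D.Sha (EF (-12987 * M ^ 2) (-263466 * M ^ 3) F)) n := by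
  classical
  have hd0 : ∀ i, d i ≠ 0 := by
    intro i h0
    refine hd {i} (Finset.singleton_nonempty i) ?_
    rw [Finset.prod_singleton, h0]
    exact ⟨0, rfl⟩
  have hM0 : M ≠ 0 := by
    obtain ⟨D, -, h1, -, k, h2, h3⟩ := h ∅
    rw [Finset.prod_empty, mul_one] at h3
    rw [h3]
    exact mul_ne_zero (by exact_mod_cast h1.1.ne_zero) (pow_ne_zero 2 h2)
  have h3 : Kl (Pool.Agent.TH841.NF.D.Sha (EF (-12987 * M ^ 2) (-263466 * M ^ 3) F)) (n + 0) := by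
    refine Pool.Agent.Y723.QT.base_kl (r := x) (d := fun i => (d i : ℚ)) (fun i => ?_)
      (fun i => by exact_mod_cast hd0 i) hgen fun T => ?_
    · rw [hx i, map_intCast]
    · rw [Pool.Agent.TH841.NF.tw_Sh]
      obtain ⟨D, -, h1, h2, k, h3, h5⟩ := h T
      have h4 := sha_two h1 h2 h3 h5
      have e1 : (∏ i ∈ T, d i) ^ 2 * (-12987 * M ^ 2) = -12987 * (M * ∏ i ∈ T, d i) ^ 2 := by ring
      have e2 : (∏ i ∈ T, d i) ^ 3 * (-263466 * M ^ 3) = -263466 * (M * ∏ i ∈ T, d i) ^ 3 := by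
        ring
      rw [e1, e2]
      exact Pool.Agent.Y687.JQ.kl_zero h4
  rw [add_zero] at h3
  have hD : 4 * (-12987 * M ^ 2) ^ 3 + 27 * (-263466 * M ^ 3) ^ 2 ≠ 0 := by
    have e : 4 * (-12987 * M ^ 2) ^ 3 + 27 * (-263466 * M ^ 3) ^ 2 =
        (4 * (-12987) ^ 3 + 27 * 263466 ^ 2) * M ^ 6 := by ring
    rw [e]
    exact mul_ne_zero (by norm_num) (pow_ne_zero 6 hM0)
  have he : (123 * M) ^ 3 + (-12987 * M ^ 2) * (123 * M) + (-263466 * M ^ 3) = 0 := by ring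
  exact ⟨(Pool.Agent.Y723.QT.f2_iff (Pool.Agent.Y723.QT.tf_EF (F := F) hD he)).2 ⟨n, h3⟩, h3⟩

end Pool.Agent.Helper382_X15
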