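import Pool.Agent.Helper382_X15.Fam

/-!
# Infinite multiquadratic fields over which finitely many twists of `X_0(15)` have rank zero
-/

set_option autoImplicit false

open Filter Topology

namespace Pool.Agent.Helper382_X15

open Pool.Agent.Results.MP_50bb2e_nt.MultiquadraticX15 (Cls UpTo InCls Ind RankZeroShaTwo GoodPair
  IsMultiquadratic OrderZero EK c num field_zero)

theorem upTo_sq {z k : ℤ} {D : ℕ} (hk : k ≠ 0) (h : UpTo z D) : UpTo (z * k ^ 2) D := by
  obtain ⟨l, hl, h⟩ := h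
  exact ⟨l * k, mul_ne_zero hl hk, by rw [h]; ring⟩

/-- the products over the finite sets of indices -/
theorem prod_odd {e : ℕ → ℤ} (he : ∀ i, e i ≠ 0) {r : ℕ} (T : Fin r → Finset ℕ)
    (S : Finset (Fin r)) : ∃ (U : Finset ℕ) (k : ℤ), k ≠ 0 ∧
      ∏ j ∈ S, ∏ i ∈ T j, e i = (∏ i ∈ U, e i) * k ^ 2 := by
  classical
  induction S using Finset.induction_on with
  | empty => exact ⟨∅, 1, one_ne_zero, by simp⟩
  | insert j S hj ih =>
    obtain ⟨U, k, hk, h⟩ := ih
    refine ⟨symmDiff (T j) U, (∏ i ∈ T j ∩ U, e i) * k,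
      mul_ne_zero (Finset.prod_ne_zero_iff.2 fun i _ => he i) hk, ?_⟩
    rw [Finset.prod_insert hj, h, mul_pow, ← mul_assoc, ← mul_assoc, prod_sym']

/-- a finite set of indices inside an initial segment -/
theorem exists_seg (e : ℕ → ℤ) (U : Finset ℕ) (n : ℕ) : ∃ (m : ℕ) (T : Finset (Fin m)), n ≤ m ∧
    ∏ i ∈ U, e i = ∏ i ∈ T, e (i : ℕ) := by
  classical
  refine ⟨max n (U.sup id + 1), Finset.univ.filter fun i => (i : ℕ) ∈ U, le_max_left _ _, ?_⟩
  symm
  refine Finset.prod_nbij (fun i => (i : ℕ)) (fun i hi => (Finset.mem_filter.1 hi).2)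
    (fun i _ j _ h => Fin.ext h) (fun i hi => ?_) fun i _ => rfl
  have h1 : i < max n (U.sup id + 1) := by
    have h2 := Finset.le_sup (f := id) (Finset.mem_coe.1 hi)
    have h3 : i ≤ U.sup id := h2
    exact lt_of_lt_of_le (Nat.lt_succ_of_le h3) (le_max_right _ _)
  exact ⟨⟨i, h1⟩, Finset.mem_coe.2 (Finset.mem_filter.2 ⟨Finset.mem_univ _, Finset.mem_coe.1 hi⟩), rfl⟩

theorem goodPair_prod {M : ℤ} {e : ℕ → ℤ} {n : ℕ} (he : ∀ i, e i ≠ 0)
    (h : ∀ m, n ≤ m → GoodPair M (fun i : Fin m => e i)) {r : ℕ} (T : Fin r → Finset ℕ) :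
    GoodPair M (fun j => ∏ i ∈ T j, e i) := by
  intro S
  obtain ⟨U, k, hk, h1⟩ := prod_odd he T S
  obtain ⟨m, T', hm, h2⟩ := exists_seg e U n
  obtain ⟨D, h3, h4, h5, h6⟩ := h m hm T'
  refine ⟨D, h3, h4, h5, ?_⟩
  have e1 : M * ∏ j ∈ S, ∏ i ∈ T j, e i = (M * ∏ i ∈ T', e (i : ℕ)) * k ^ 2 := by
    rw [h1, h2]
    ring
  rw [e1]
  exact upTo_sq hk h6

theorem ne_zero_of {e : ℕ → ℤ} {n : ℕ} (h : ∀ m, n ≤ m → Ind (fun i : Fin m => e i)) :
    ∀ i, e i ≠ 0 := by
  intro i h0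
  refine h (max n (i + 1)) (le_max_left _ _)
    {⟨i, lt_of_lt_of_le (Nat.lt_succ_self i) (le_max_right _ _)⟩} (Finset.singleton_nonempty _) ?_
  rw [Finset.prod_singleton]
  exact ⟨0, by simpa using h0⟩

/-- one more root -/
theorem exists_step {n : ℕ} {𝒩 : Finset ℤ} {d : Fin n → ℤ} (h : GoodFamily 𝒩 d)
    (h𝒩 : 𝒩.Nonempty) (hc : 0 < c) :
    ∃ D : ℕ, Cls D ∧ GoodFamily 𝒩 (Fin.snoc d (D : ℤ) : Fin (n + 1) → ℤ) := by
  classical
  have h1 := prop_fam h h𝒩
  have h2 := (h1.eventually (lt_mem_nhds (show (0 : ℝ) < c ^ (𝒩.card * 2 ^ n) by positivity))).exists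
  obtain ⟨X, hX⟩ := h2
  by_contra hno
  have h3 : num (fun D => GoodFamily 𝒩 (Fin.snoc d (D : ℤ) : Fin (n + 1) → ℤ)) X = 0 := by
    unfold num
    rw [Finset.card_eq_zero, Finset.filter_eq_empty_iff]
    rintro D - ⟨hD, hg⟩
    exact hno ⟨D, hD, hg⟩
  rw [h3, Nat.cast_zero, zero_div] at hX
  exact lt_irrefl _ hX

open Classical in
/-- the initial segments of the sequence -/
noncomputable def seg {n : ℕ} {𝒩 : Finset ℤ} {d : Fin n → ℤ} (h : GoodFamily 𝒩 d)
    (h𝒩 : 𝒩.Nonempty) (hc : 0 < c) : (k : ℕ) → {g : Fin (n + k) → ℤ // GoodFamily 𝒩 g}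
  | 0 => ⟨d, h⟩
  | k + 1 => ⟨Fin.snoc (seg h h𝒩 hc k).1 ((exists_step (seg h h𝒩 hc k).2 h𝒩 hc).choose : ℤ),
      (exists_step (seg h h𝒩 hc k).2 h𝒩 hc).choose_spec.2⟩

/-- **Infinite towers.** -/
theorem exists_tower {n : ℕ} {𝒩 : Finset ℤ} {d : Fin n → ℤ} (h : GoodFamily 𝒩 d)
    (h𝒩 : 𝒩.Nonempty) (hc : 0 < c) : ∃ e : ℕ → ℤ, (∀ i : Fin n, e i = d i) ∧
      (∀ i, n ≤ i → ∃ D : ℕ, Cls D ∧ e i = D) ∧
      ∀ m, n ≤ m → GoodFamily 𝒩 (fun i : Fin m => e i) := by
  classical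
  have hs : ∀ (k i : ℕ) (hi : i < n + k), (seg h h𝒩 hc (k + 1)).1 ⟨i, by omega⟩ =
      (seg h h𝒩 hc k).1 ⟨i, hi⟩ := by
    intro k i hi
    have h1 : (⟨i, by omega⟩ : Fin (n + k + 1)) = Fin.castSucc ⟨i, hi⟩ := rfl
    show (Fin.snoc (seg h h𝒩 hc k).1 ((exists_step (seg h h𝒩 hc k).2 h𝒩 hc).choose : ℤ) :
      Fin (n + k + 1) → ℤ) ⟨i, by omega⟩ = _
    rw [h1, Fin.snoc_castSucc]
  have hs2 : ∀ (l k i : ℕ) (hi : i < n + k), (seg h h𝒩 hc (k + l)).1 ⟨i, by omega⟩ =
      (seg h h𝒩 hc k).1 ⟨i, hi⟩ := by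
    intro l
    induction l with
    | zero => intro k i hi; rfl
    | succ l ih =>
      intro k i hi
      rw [← ih k i hi]
      exact hs (k + l) i (by omega)
  have hs3 : ∀ (k k' i : ℕ) (hi : i < n + k) (hi' : i < n + k'), (seg h h𝒩 hc k).1 ⟨i, hi⟩ =
      (seg h h𝒩 hc k').1 ⟨i, hi'⟩ := by
    intro k k' i hi hi'
    rcases le_total k k' with hk | hk
    · obtain ⟨l, rfl⟩ := Nat.exists_eq_add_of_le hk
      exact (hs2 l k i hi).symm
    · obtain ⟨l, rfl⟩ := Nat.exists_eq_add_of_le hk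
      exact hs2 l k' i hi'
  refine ⟨fun i => (seg h h𝒩 hc (i + 1)).1 ⟨i, by omega⟩, fun i => ?_, fun i hi => ?_, fun m hm => ?_⟩
  · exact hs3 (i + 1) 0 i (by omega) (by omega)
  · obtain ⟨k, rfl⟩ := Nat.exists_eq_add_of_le hi
    refine ⟨(exists_step (seg h h𝒩 hc k).2 h𝒩 hc).choose,
      (exists_step (seg h h𝒩 hc k).2 h𝒩 hc).choose_spec.1, ?_⟩
    show (seg h h𝒩 hc (n + k + 1)).1 ⟨n + k, by omega⟩ = _
    rw [hs3 (n + k + 1) (k + 1) (n + k) (by omega) (by omega)]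
    show (Fin.snoc (seg h h𝒩 hc k).1 ((exists_step (seg h h𝒩 hc k).2 h𝒩 hc).choose : ℤ) :
      Fin (n + k + 1) → ℤ) ⟨n + k, by omega⟩ = _
    have h1 : (⟨n + k, by omega⟩ : Fin (n + k + 1)) = Fin.last (n + k) := rfl
    rw [h1, Fin.snoc_last]
  · obtain ⟨k, rfl⟩ := Nat.exists_eq_add_of_le hm
    have h1 : (fun i : Fin (n + k) => (seg h h𝒩 hc ((i : ℕ) + 1)).1 ⟨(i : ℕ), by omega⟩) =
        (seg h h𝒩 hc k).1 := by
      funext i
      exact hs3 _ k i (by omega) i.2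
    rw [h1]
    exact (seg h h𝒩 hc k).2

/-! ### torsion over the infinite fields -/

/-- the curve `E_M` over `K` -/
def Curve (K : Type) [Field K] (M : ℤ) : WeierstrassCurve K :=
  ⟨0, 0, 0, ((-12987 * M ^ 2 : ℤ) : K), ((-263466 * M ^ 3 : ℤ) : K)⟩

open Classical in
/-- torsion over a union of fields -/
theorem tors_union (W : WeierstrassCurve ℚ) {L : Type} [Field L] [Algebra ℚ L]
    (hfin : ∀ a b : L, ∃ K : IntermediateField ℚ L, a ∈ K ∧ b ∈ K ∧
      Finite (W.baseChange K).toAffine.Point) (P : (W.baseChange L).toAffine.Point) :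
    IsOfFinAddOrder P := by
  rcases P with _ | ⟨a, b, h⟩
  · exact IsOfFinAddOrder.zero
  · obtain ⟨K, ha, hb, hK⟩ := hfin a b
    have h' : (W.baseChange K).toAffine.Nonsingular (⟨a, ha⟩ : K) (⟨b, hb⟩ : K) :=
      (WeierstrassCurve.Affine.baseChange_nonsingular (W := W) (f := IsScalarTower.toAlgHom ℚ K L)
        (algebraMap K L).injective (⟨a, ha⟩ : K) (⟨b, hb⟩ : K)).1 h
    have h2 : IsOfFinAddOrder (WeierstrassCurve.Affine.Point.some _ _ h') := isOfFinAddOrder_of_finite _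
    have h3 := (WeierstrassCurve.Affine.Point.map (W' := W) (IsScalarTower.toAlgHom ℚ K L)).isOfFinAddOrder h2
    exact h3

/-- the field which is generated by some elements -/
theorem gen_top {F L : Type} [Field F] [Field L] [Algebra F L] {n : ℕ} (x : Fin n → L) :
    IntermediateField.adjoin F (Set.range fun i : Fin n =>
      (⟨x i, IntermediateField.subset_adjoin F _ ⟨i, rfl⟩⟩ :
        IntermediateField.adjoin F (Set.range x))) = ⊤ := by
  refine IntermediateField.map_injective (IntermediateField.adjoin F (Set.range x)).val ?_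
  rw [IntermediateField.adjoin_map, ← AlgHom.fieldRange_eq_map, IntermediateField.fieldRange_val]
  congr 1
  rw [← Set.range_comp]
  rfl

/-- finiteness over the field, for any structure of an algebra over `ℚ` -/
theorem fin_of {n : ℕ} {d : Fin n → ℤ} {M : ℤ} (hd : Ind d) (h : GoodPair M d)
    (K : Type) [Field K] [CharZero K] [inst : Algebra ℚ K] [hfd : FiniteDimensional ℚ K]
    (x : Fin n → K) (hx : ∀ j, x j ^ 2 = (d j : K))
    (hgen : IntermediateField.adjoin ℚ (Set.range x) = ⊤) : Finite (Curve K M).toAffine.Point := by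
  obtain rfl : inst = DivisionRing.toRatAlgebra := Subsingleton.elim _ _
  have : NumberField K := { to_charZero := inferInstance, to_finiteDimensional := hfd }
  exact (field_zero hd h K ⟨x, hx, hgen⟩).2.2

theorem base_eq (K : Type) [Field K] [Algebra ℚ K] (M : ℤ) :
    Curve K M = (Curve ℚ M).baseChange K :=
  WeierstrassCurve.ext (map_zero (algebraMap ℚ K)).symm (map_zero (algebraMap ℚ K)).symm
    (map_zero (algebraMap ℚ K)).symm (map_intCast (algebraMap ℚ K) _).symm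
    (map_intCast (algebraMap ℚ K) _).symm

open Classical in
/-- all points over the infinite field are torsion points -/
theorem torsion {M : ℤ} {e : ℕ → ℤ} {n₀ : ℕ} (hI : ∀ m, n₀ ≤ m → Ind (fun i : Fin m => e i))
    (hG : ∀ m, n₀ ≤ m → GoodPair M (fun i : Fin m => e i))
    (L : Type) [Field L] [Algebra ℚ L] (x : ℕ → L) (hx : ∀ i, x i ^ 2 = (e i : L))
    (hgen : IntermediateField.adjoin ℚ (Set.range x) = ⊤) (P : (Curve L M).toAffine.Point) :
    IsOfFinAddOrder P := by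
  revert P
  rw [base_eq]
  refine fun P => tors_union _ (fun a b => ?_) P
  obtain ⟨n, hn₀, ha, hb⟩ : ∃ n : ℕ, n₀ ≤ n ∧
      a ∈ IntermediateField.adjoin ℚ (Set.range fun i : Fin n => x i) ∧
      b ∈ IntermediateField.adjoin ℚ (Set.range fun i : Fin n => x i) := by
    have key : ∀ a : L, ∃ n : ℕ, ∀ n' ≥ n,
        a ∈ IntermediateField.adjoin ℚ (Set.range fun i : Fin n' => x i) := by
      intro a
      have ha : a ∈ IntermediateField.adjoin ℚ (Set.range x) := by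
        rw [hgen]
        exact IntermediateField.mem_top
      obtain ⟨S, hS, haS⟩ := IntermediateField.exists_finset_of_mem_adjoin ha
      have h5 : ∃ n : ℕ, ∀ y ∈ S, ∃ i < n, x i = y := by
        have h6 : ∀ y ∈ S, ∃ i, x i = y := fun y hy => hS hy
        choose! i hi using h6
        refine ⟨S.sup i + 1, fun y hy => ⟨i y, ?_, hi y hy⟩⟩
        have := Finset.le_sup (f := i) hy
        omega
      obtain ⟨n, hn⟩ := h5
      refine ⟨n, fun n' hn' => ?_⟩
      refine IntermediateField.adjoin.mono ℚ _ _ ?_ haS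
      intro y hy
      obtain ⟨i, hi, rfl⟩ := hn y hy
      exact ⟨⟨i, by omega⟩, rfl⟩
    obtain ⟨n₁, h5⟩ := key a
    obtain ⟨n₂, h6⟩ := key b
    exact ⟨max n₀ (max n₁ n₂), le_max_left _ _, h5 _ ((le_max_left _ _).trans (le_max_right _ _)),
      h6 _ ((le_max_right _ _).trans (le_max_right _ _))⟩
  refine ⟨IntermediateField.adjoin ℚ (Set.range fun i : Fin n => x i), ha, hb, ?_⟩
  set K := IntermediateField.adjoin ℚ (Set.range fun i : Fin n => x i) with hK
  have hint : ∀ i : Fin n, IsIntegral ℚ (x i) := by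
    intro i
    refine IsIntegral.of_pow (n := 2) (by norm_num) ?_
    rw [hx i]
    have h5 : ((e i : ℤ) : L) = algebraMap ℚ L ((e i : ℤ) : ℚ) := (map_intCast (algebraMap ℚ L) _).symm
    rw [h5]
    exact isIntegral_algebraMap
  have hfd : FiniteDimensional ℚ K := by
    rw [hK]
    refine IntermediateField.finiteDimensional_adjoin ?_
    rintro y ⟨i, rfl⟩
    exact hint i
  let x' : Fin n → K := fun i => ⟨x i, IntermediateField.subset_adjoin ℚ _ ⟨i, rfl⟩⟩
  have hx' : ∀ i : Fin n, x' i ^ 2 = ((e i : ℤ) : K) := fun i => by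
    refine Subtype.ext ?_
    push_cast
    exact hx i
  have hgen' : @IntermediateField.adjoin ℚ _ K _ K.algebra' (Set.range x') = ⊤ :=
    gen_top (fun i : Fin n => x i)
  have hres := @fin_of n (fun i : Fin n => e i) M (hI n hn₀) (hG n hn₀) K _
    (charZero_of_injective_algebraMap (algebraMap ℚ K).injective) K.algebra' hfd x' hx' hgen'
  rw [base_eq] at hres
  exact hres

end Pool.Agent.Helper382_X15
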